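import Mathlib

/-!
# The core of Brown's construction: spheres of a quadratic form contain no K_(3,3)
-/

set_option autoImplicit false

namespace H15DRC

variable {F : Type*} [Field F]

private theorem no_iso (h2 : (2 : F) ≠ 0) {g : F} (hg : ¬ IsSquare g) {w1 w2 w3 u1 u2 u3 : F}
    (hw : w1 * w2 + w3 ^ 2 = g) (hb : w1 * u2 + w2 * u1 + 2 * w3 * u3 = 0)
    (hu : u1 * u2 + u3 ^ 2 = 0) (hne : ¬ (u1 = 0 ∧ u2 = 0 ∧ u3 = 0)) : False := by
  by_cases h3 : u3 = 0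
  · subst h3
    have h4 : u1 * u2 = 0 := by linear_combination hu
    rcases mul_eq_zero.1 h4 with h5 | h5
    · have h6 : u2 ≠ 0 := fun h => hne ⟨h5, h, rfl⟩
      subst h5
      have h7 : w1 * u2 = 0 := by linear_combination hb
      rcases mul_eq_zero.1 h7 with h8 | h8
      · subst h8
        exact hg ⟨w3, by linear_combination -hw⟩
      · exact h6 h8
    · have h6 : u1 ≠ 0 := fun h => hne ⟨h, h5, rfl⟩
      subst h5
      have h7 : w2 * u1 = 0 := by linear_combination hb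
      rcases mul_eq_zero.1 h7 with h8 | h8
      · subst h8
        exact hg ⟨w3, by linear_combination -hw⟩
      · exact h6 h8
  · have h4 : (2 * u3) ≠ 0 := mul_ne_zero h2 h3
    have h5 : (u1 * w2 - u2 * w1) ^ 2 = (2 * u3) ^ 2 * g := by
      have h6 : u1 * w2 + u2 * w1 = -(2 * w3 * u3) := by linear_combination hb
      have h7 : u1 * u2 = -u3 ^ 2 := by linear_combination hu
      have h8 : (u1 * w2 - u2 * w1) ^ 2
          = (u1 * w2 + u2 * w1) ^ 2 - 4 * (u1 * u2) * (w1 * w2) := by ring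
      rw [h8, h6, h7, ← hw]
      ring
    refine hg ⟨(u1 * w2 - u2 * w1) / (2 * u3), ?_⟩
    rw [div_mul_div_comm, eq_div_iff (mul_ne_zero h4 h4)]
    linear_combination -h5

private theorem no_line (h2 : (2 : F) ≠ 0) {g : F} (hg : ¬ IsSquare g)
    {w1 w2 w3 u1 u2 u3 t : F} (ht0 : t ≠ 0) (ht1 : t ≠ 1)
    (h0 : w1 * w2 + w3 ^ 2 = g)
    (h1 : (w1 + u1) * (w2 + u2) + (w3 + u3) ^ 2 = g)
    (ht : (w1 + t * u1) * (w2 + t * u2) + (w3 + t * u3) ^ 2 = g)
    (hne : ¬ (u1 = 0 ∧ u2 = 0 ∧ u3 = 0)) : False := by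
  have e1 : (w1 * u2 + w2 * u1 + 2 * w3 * u3) + (u1 * u2 + u3 ^ 2) = 0 := by
    linear_combination h1 - h0
  have e2 : t * ((w1 * u2 + w2 * u1 + 2 * w3 * u3) + t * (u1 * u2 + u3 ^ 2)) = 0 := by
    linear_combination ht - h0
  have e3 : (w1 * u2 + w2 * u1 + 2 * w3 * u3) + t * (u1 * u2 + u3 ^ 2) = 0 :=
    (mul_eq_zero.1 e2).resolve_left ht0
  have e4 : (t - 1) * (u1 * u2 + u3 ^ 2) = 0 := by linear_combination e3 - e1
  have e5 : u1 * u2 + u3 ^ 2 = 0 := (mul_eq_zero.1 e4).resolve_left (sub_ne_zero.2 ht1)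
  exact no_iso h2 hg h0 (by linear_combination e1 - e5) e5 hne

private theorem par {p1 p2 p3 q1 q2 q3 : F} (hp : ¬ (p1 = 0 ∧ p2 = 0 ∧ p3 = 0))
    (h12 : p1 * q2 = p2 * q1) (h23 : p2 * q3 = p3 * q2) (h13 : p1 * q3 = p3 * q1) :
    ∃ t : F, q1 = t * p1 ∧ q2 = t * p2 ∧ q3 = t * p3 := by
  by_cases h1 : p1 = 0
  · by_cases h2 : p2 = 0
    · have h3 : p3 ≠ 0 := fun h => hp ⟨h1, h2, h⟩
      refine ⟨q3 / p3, ?_, ?_, ?_⟩ <;> field_simp
      · linear_combination -h13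
      · linear_combination -h23
    · refine ⟨q2 / p2, ?_, ?_, ?_⟩ <;> field_simp
      · linear_combination -h12
      · linear_combination h23
  · refine ⟨q1 / p1, ?_, ?_, ?_⟩ <;> field_simp
    · linear_combination h12
    · linear_combination h13

private theorem ne3 {a b : F × F × F} (h : a ≠ b) :
    ¬ (a.1 - b.1 = 0 ∧ a.2.1 - b.2.1 = 0 ∧ a.2.2 - b.2.2 = 0) := fun ⟨h1, h2, h3⟩ =>
  h (Prod.ext (sub_eq_zero.1 h1) (Prod.ext (sub_eq_zero.1 h2) (sub_eq_zero.1 h3)))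

/-- A collinear triple is impossible. -/
private theorem no_col (h2 : (2 : F) ≠ 0) {g : F} (hg : ¬ IsSquare g)
    {a b c y : F × F × F} (hab : a ≠ b) (hac : a ≠ c) (hbc : b ≠ c)
    (ha : (a.1 - y.1) * (a.2.1 - y.2.1) + (a.2.2 - y.2.2) ^ 2 = g)
    (hb : (b.1 - y.1) * (b.2.1 - y.2.1) + (b.2.2 - y.2.2) ^ 2 = g)
    (hc : (c.1 - y.1) * (c.2.1 - y.2.1) + (c.2.2 - y.2.2) ^ 2 = g)
    {t : F} (h1 : c.1 - a.1 = t * (b.1 - a.1)) (h3 : c.2.1 - a.2.1 = t * (b.2.1 - a.2.1))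
    (h4 : c.2.2 - a.2.2 = t * (b.2.2 - a.2.2)) : False := by
  have ht0 : t ≠ 0 := by
    rintro rfl
    exact ne3 hac.symm ⟨by rw [h1]; ring, by rw [h3]; ring, by rw [h4]; ring⟩
  have ht1 : t ≠ 1 := by
    rintro rfl
    exact ne3 hbc ⟨by linear_combination -h1, by linear_combination -h3,
      by linear_combination -h4⟩
  refine no_line h2 hg (w1 := a.1 - y.1) (w2 := a.2.1 - y.2.1) (w3 := a.2.2 - y.2.2)
    (u1 := b.1 - a.1) (u2 := b.2.1 - a.2.1) (u3 := b.2.2 - a.2.2) ht0 ht1 ha ?_ ?_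
    (ne3 hab.symm)
  · linear_combination hb
  · rw [← h1, ← h3, ← h4]
    linear_combination hc

theorem brown_core {F : Type*} [Field F] (h2 : (2 : F) ≠ 0) (g : F) (hg : ¬ IsSquare g)
    (x y : Fin 3 → F × F × F) (hx : Function.Injective x) (hy : Function.Injective y)
    (h : ∀ i j, ((x i).1 - (y j).1) * ((x i).2.1 - (y j).2.1) + ((x i).2.2 - (y j).2.2) ^ 2 = g) :
    False := by
  have hs : ∀ i j, ((y j).1 - (x i).1) * ((y j).2.1 - (x i).2.1)
      + ((y j).2.2 - (x i).2.2) ^ 2 = g := by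
    intro i j
    linear_combination h i j
  have x01 : x 0 ≠ x 1 := fun e => absurd (hx e) (by decide)
  have x02 : x 0 ≠ x 2 := fun e => absurd (hx e) (by decide)
  have x12 : x 1 ≠ x 2 := fun e => absurd (hx e) (by decide)
  have y01 : y 0 ≠ y 1 := fun e => absurd (hy e) (by decide)
  have y02 : y 0 ≠ y 2 := fun e => absurd (hy e) (by decide)
  have y12 : y 1 ≠ y 2 := fun e => absurd (hy e) (by decide)
  -- orthogonality
  have hb : ∀ i j, ((y j).1 - (y 0).1) * ((x i).2.1 - (x 0).2.1)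
      + ((y j).2.1 - (y 0).2.1) * ((x i).1 - (x 0).1)
      + ((y j).2.2 - (y 0).2.2) * (2 * ((x i).2.2 - (x 0).2.2)) = 0 := by
    intro i j
    linear_combination h i 0 - h i j - h 0 0 + h 0 j
  have b11 := hb 1 1
  have b12 := hb 1 2
  have b21 := hb 2 1
  have b22 := hb 2 2
  -- coordinates
  generalize he1 : (x 1).1 - (x 0).1 = a1 at *
  generalize he2 : (x 1).2.1 - (x 0).2.1 = a2 at *
  generalize he3 : (x 1).2.2 - (x 0).2.2 = a3 at *
  generalize hf1 : (x 2).1 - (x 0).1 = c1 at *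
  generalize hf2 : (x 2).2.1 - (x 0).2.1 = c2 at *
  generalize hf3 : (x 2).2.2 - (x 0).2.2 = c3 at *
  have ha : ¬ (a1 = 0 ∧ a2 = 0 ∧ a3 = 0) := by
    rw [← he1, ← he2, ← he3]
    exact ne3 x01.symm
  by_cases hn : a2 * c1 = a1 * c2 ∧ a1 * c3 = a3 * c1 ∧ a2 * c3 = a3 * c2
  · obtain ⟨t, t1, t2, t3⟩ := par ha (by linear_combination -hn.1) hn.2.2 hn.2.1
    exact no_col h2 hg x01 x02 x12 (h 0 0) (h 1 0) (h 2 0)
      (by rw [hf1, he1]; exact t1) (by rw [hf2, he2]; exact t2) (by rw [hf3, he3]; exact t3)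
  · -- the cross product of (a2, a1, 2 a3) and (c2, c1, 2 c3)
    have hN : ¬ (a1 * (2 * c3) - 2 * a3 * c1 = 0 ∧ 2 * a3 * c2 - a2 * (2 * c3) = 0 ∧
        a2 * c1 - a1 * c2 = 0) := by
      rintro ⟨n1, n2, n3⟩
      refine hn ⟨by linear_combination n3, ?_, ?_⟩
      · exact mul_left_cancel₀ h2 (by linear_combination n1)
      · exact mul_left_cancel₀ h2 (by linear_combination -n2)
    have hd : ∀ d1 d2 d3 : F, d1 * a2 + d2 * a1 + d3 * (2 * a3) = 0 →
        d1 * c2 + d2 * c1 + d3 * (2 * c3) = 0 →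
        ∃ t : F, d1 = t * (a1 * (2 * c3) - 2 * a3 * c1) ∧
          d2 = t * (2 * a3 * c2 - a2 * (2 * c3)) ∧ d3 = t * (a2 * c1 - a1 * c2) := by
      intro d1 d2 d3 k1 k2
      refine par hN ?_ ?_ ?_
      · linear_combination (2 * c3) * k1 - (2 * a3) * k2
      · linear_combination c2 * k1 - a2 * k2
      · linear_combination a1 * k2 - c1 * k1
    obtain ⟨s, s1, s2, s3⟩ := hd _ _ _ b11 b21
    obtain ⟨r, r1, r2, r3⟩ := hd _ _ _ b12 b22
    have hs0 : s ≠ 0 := by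
      rintro rfl
      exact ne3 y01.symm ⟨by rw [s1]; ring, by rw [s2]; ring, by rw [s3]; ring⟩
    refine no_col h2 hg y01 y02 y12 (hs 0 0) (hs 0 1) (hs 0 2) (t := r / s) ?_ ?_ ?_
    · rw [r1, s1]; field_simp
    · rw [r2, s2]; field_simp
    · rw [r3, s3]; field_simp

end H15DRC
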