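import Pool.Agent.Lib.H15DRC.Final

/-!
# The lower bound for graphs containing a 4-cycle
-/

set_option autoImplicit false

namespace H15DRC

open SimpleGraph Finset Filter Asymptotics Pool.Agent.Lib.Helper15.Glue

/-- The point-line incidence graph of the affine plane without the vertical lines. -/
def incG (K : Type*) [Field K] : SimpleGraph ((K × K) ⊕ (K × K)) where
  Adj a b := match a, b with
    | Sum.inl p, Sum.inr l => p.2 = l.1 * p.1 + l.2
    | Sum.inr l, Sum.inl p => p.2 = l.1 * p.1 + l.2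
    | _, _ => False
  symm := ⟨by
    rintro (a | a) (b | b) h <;> simp at h ⊢ <;> exact h⟩
  loopless := ⟨by
    rintro (a | a) h <;> simp at h⟩

theorem inc_unique {K : Type*} [Field K] {p q l k : K × K} (h1 : p.2 = l.1 * p.1 + l.2)
    (h2 : q.2 = l.1 * q.1 + l.2) (h3 : p.2 = k.1 * p.1 + k.2) (h4 : q.2 = k.1 * q.1 + k.2)
    (hpq : p ≠ q) : l = k := by
  have h5 : (l.1 - k.1) * (p.1 - q.1) = 0 := by linear_combination h2 - h1 + h3 - h4
  rcases mul_eq_zero.1 h5 with h | h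
  · have h6 : l.1 = k.1 := sub_eq_zero.1 h
    refine Prod.ext h6 ?_
    have h7 : l.1 * p.1 + l.2 = k.1 * p.1 + k.2 := h1.symm.trans h3
    rw [h6] at h7
    exact add_left_cancel h7
  · exfalso
    have h6 : p.1 = q.1 := sub_eq_zero.1 h
    refine hpq (Prod.ext h6 ?_)
    rw [h1, h2, h6]

theorem incG_free (K : Type*) [Field K] : (cycleGraph 4).Free (incG K) := by
  rintro ⟨c⟩
  have h01 : (incG K).Adj (c 0) (c 1) := c.toHom.map_adj (by decide)
  have h12 : (incG K).Adj (c 1) (c 2) := c.toHom.map_adj (by decide)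
  have h23 : (incG K).Adj (c 2) (c 3) := c.toHom.map_adj (by decide)
  have h30 : (incG K).Adj (c 3) (c 0) := c.toHom.map_adj (by decide)
  have n02 : c 0 ≠ c 2 := fun h => absurd (c.injective h) (by decide)
  have n13 : c 1 ≠ c 3 := fun h => absurd (c.injective h) (by decide)
  rcases h0 : c 0 with p | l <;> rcases h1 : c 1 with q | k <;>
    rcases h2 : c 2 with p' | l' <;> rcases h3 : c 3 with q' | k' <;>
    rw [h0, h1] at h01 <;> rw [h1, h2] at h12 <;> rw [h2, h3] at h23 <;> rw [h3, h0] at h30 <;>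
    simp only [incG] at h01 h12 h23 h30
  · -- p, k, p', k'
    rw [h0, h2] at n02
    rw [h1, h3] at n13
    exact n13 (congrArg Sum.inr (inc_unique h01 h12 h30 h23 fun h => n02 (congrArg Sum.inl h)))
  · rw [h0, h2] at n02
    rw [h1, h3] at n13
    exact n02 (congrArg Sum.inr (inc_unique h01 h30 h12 h23 fun h => n13 (congrArg Sum.inl h)))

theorem incG_edges (K : Type*) [Field K] [Fintype K] [DecidableEq K]
    [Fintype (incG K).edgeSet] :
    Fintype.card K ^ 3 ≤ #(incG K).edgeFinset := by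
  have h : #(univ : Finset (K × K × K)) ≤ #(incG K).edgeFinset := by
    refine card_le_card_of_injOn
      (fun t => s(Sum.inl (t.1, t.2.1 * t.1 + t.2.2), Sum.inr (t.2.1, t.2.2))) ?_ ?_
    · intro t _
      rw [mem_coe, mem_edgeFinset, mem_edgeSet]
      simp [incG]
    · intro a _ b _ hab
      simp only [Sym2.eq_iff, Sum.inl.injEq, Sum.inr.injEq, Prod.mk.injEq, reduceCtorEq,
        false_and, or_false] at hab
      obtain ⟨⟨h1, -⟩, h2, h3⟩ := hab
      exact Prod.ext h1 (Prod.ext h2 h3)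
  rw [card_univ, Fintype.card_prod, Fintype.card_prod] at h
  calc Fintype.card K ^ 3 = Fintype.card K * (Fintype.card K * Fintype.card K) := by ring
    _ ≤ _ := h

theorem prime_le (p : ℕ) (hp : p.Prime) : p ^ 3 ≤ extremalNumber (2 * p ^ 2) (cycleGraph 4) := by
  classical
  have := Fact.mk hp
  have h1 := card_edgeFinset_le_extremalNumber (incG_free (ZMod p))
  have h2 := incG_edges (ZMod p)
  rw [ZMod.card] at h2
  have h3 : Fintype.card ((ZMod p × ZMod p) ⊕ (ZMod p × ZMod p)) = 2 * p ^ 2 := by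
    rw [Fintype.card_sum, Fintype.card_prod, ZMod.card]
    ring
  rw [h3] at h1
  exact h2.trans h1

theorem c4_bound : ∀ n : ℕ, 32 ≤ n →
    (n : ℝ) ^ (3 / 2 : ℝ) ≤ 200 * (extremalNumber n (cycleGraph 4) + 16) := by
  intro n hn
  set m : ℕ := Nat.sqrt (n / 8) with hm
  have hm1 : m * m ≤ n / 8 := Nat.sqrt_le _
  have hm2 : n / 8 < (m + 1) * (m + 1) := Nat.lt_succ_sqrt _
  have hm3 : 2 ≤ m := Nat.le_sqrt.2 (by omega)
  obtain ⟨p, hp, hp1, hp2⟩ := Nat.exists_prime_lt_and_le_two_mul m (by omega)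
  have h1 := prime_le p hp
  have h2 : 2 * p ^ 2 ≤ n := by
    have h3 : p ^ 2 ≤ (2 * m) ^ 2 := Nat.pow_le_pow_left hp2 2
    have h4 : (2 * m) ^ 2 = 4 * (m * m) := by ring
    omega
  have h3 := extremalNumber_le_add (cycleGraph 4) h2
  rw [Fintype.card_fin] at h3
  have h4 : m ^ 3 ≤ extremalNumber n (cycleGraph 4) + 16 :=
    (Nat.pow_le_pow_left hp1.le 3).trans (h1.trans h3)
  have h5 : (n : ℝ) < 32 * (m : ℝ) ^ 2 := by
    have h6 : n < 8 * ((m + 1) * (m + 1)) := by omega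
    have h7 : (m + 1) * (m + 1) ≤ 4 * m ^ 2 - 1 := by
      obtain ⟨k, hk⟩ : ∃ k, m = k + 2 := ⟨m - 2, by omega⟩
      rw [hk]
      have : (k + 2 + 1) * (k + 2 + 1) + 1 ≤ 4 * (k + 2) ^ 2 := by nlinarith
      omega
    have h8 : n < 32 * m ^ 2 := by omega
    exact_mod_cast h8
  have h6 : (n : ℝ) ^ (3 / 2 : ℝ) ≤ 200 * (m : ℝ) ^ 3 := by
    have h7 : (n : ℝ) ^ (3 / 2 : ℝ) ≤ (32 * (m : ℝ) ^ 2) ^ (3 / 2 : ℝ) :=
      Real.rpow_le_rpow (Nat.cast_nonneg n) h5.le (by norm_num)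
    refine h7.trans ?_
    have h8 : ((32 * (m : ℝ) ^ 2) ^ (3 / 2 : ℝ)) ^ 2 ≤ (200 * (m : ℝ) ^ 3) ^ 2 := by
      rw [← Real.rpow_mul_natCast (by positivity)]
      have h9 : (3 / 2 : ℝ) * (2 : ℕ) = (3 : ℕ) := by norm_num
      rw [h9, Real.rpow_natCast]
      have h10 : (0 : ℝ) ≤ (m : ℝ) ^ 6 := by positivity
      have h11 : (32 * (m : ℝ) ^ 2) ^ 3 = 32768 * (m : ℝ) ^ 6 := by ring
      have h12 : (200 * (m : ℝ) ^ 3) ^ 2 = 40000 * (m : ℝ) ^ 6 := by ring
      rw [h11, h12]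
      nlinarith
    exact (pow_le_pow_iff_left₀ (by positivity) (by positivity) (by norm_num)).1 h8
  refine h6.trans ?_
  have h7 : ((m ^ 3 : ℕ) : ℝ) ≤ ((extremalNumber n (cycleGraph 4) + 16 : ℕ) : ℝ) := by
    exact_mod_cast h4
  push_cast at h7
  linarith

theorem half_three : (2 - 1 / ((2 : ℕ) : ℝ)) = (3 / 2 : ℝ) := by norm_num

/-- If `H` contains a 4-cycle then `n ^ (3 / 2) = O(ex(n, H))`. -/
theorem isBigO_of_c4 {W : Type*} (H : SimpleGraph W) (h : cycleGraph 4 ⊑ H) {F : ℕ → ℝ}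
    (hF : ∀ n, (extremalNumber n H : ℝ) ≤ F n) :
    (fun n : ℕ => (n : ℝ) ^ (2 - 1 / ((2 : ℕ) : ℝ))) =O[atTop] F := by
  have hF0 : ∀ n, 0 ≤ F n := fun n => (Nat.cast_nonneg _).trans (hF n)
  refine IsBigO.of_bound (400 : ℝ) ?_
  have h1 : ∀ᶠ n : ℕ in atTop, (6400 : ℝ) ≤ (n : ℝ) ^ (3 / 2 : ℝ) := by
    have h2 : Tendsto (fun n : ℕ => (n : ℝ) ^ (3 / 2 : ℝ)) atTop atTop :=
      (tendsto_rpow_atTop (by norm_num)).comp tendsto_natCast_atTop_atTop
    exact h2.eventually_ge_atTop _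
  filter_upwards [eventually_ge_atTop 32, h1] with n hn hbig
  rw [Real.norm_of_nonneg (by positivity), Real.norm_of_nonneg (hF0 n), half_three]
  have h2 := c4_bound n hn
  have h3 : (extremalNumber n (cycleGraph 4) : ℝ) ≤ extremalNumber n H := by
    exact_mod_cast h.extremalNumber_le (n := n)
  have h4 := hF n
  nlinarith

end H15DRC
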