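import Pool.Agent.Lib.H15DRC.ESF

/-!
# The block induction for a general bound `f`
-/

set_option autoImplicit false

namespace H15DRC

open SimpleGraph Finset Pool.Agent.Lib.Helper15.Glue

theorem Dom.induce {f : ℕ → ℕ} {W : Type*} {H : SimpleGraph W} (h : Dom f H) (S : Set W) :
    Dom f (H.induce S) := fun n =>
  (IsContained.extremalNumber_le ⟨Copy.induce H S⟩).trans (h n)

/-- Closure under amalgamation at a cut vertex. -/
theorem esf_cut {f : ℕ → ℕ} (hf : Monotone f) (hn : ∀ n, n ≤ f n)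
    {W : Type*} [Finite W] {H : SimpleGraph W} (hD : Dom f H) {S₁ S₂ S : Set W}
    (hS : S₁ ∪ S₂ = S) (hcross : ∀ a ∈ S₁, ∀ b ∈ S₂, H.Adj a b → a ∈ S₂ ∨ b ∈ S₁)
    {x v : W} (hx1 : x ∈ S₁) (hx2 : x ∈ S₂) (hx : ∀ a, a ∈ S₁ → a ∈ S₂ → a = x)
    (hv1 : v ∈ S₁) (hv : v ∈ S) (h₁ : ESF f (H.induce S₁) ⟨v, hv1⟩)
    (h₂ : ESF f (H.induce S₂) ⟨x, hx2⟩) : ESF f (H.induce S) ⟨v, hv⟩ := by
  classical
  have : Fintype W := Fintype.ofFinite W
  obtain ⟨C₁, hC₁⟩ := h₁.bound
  obtain ⟨C₂, hC₂⟩ := h₂.main hf hn (hD.induce S₂)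
  refine ⟨C₂ * (C₁ + 1), fun n G P hP hc => ?_⟩
  have h3 := hC₂ G (C₁ * f n) (by
    intro Z hZ
    have hproper : ∀ a b, (G.induce Z).Adj a b →
        (a ∈ {w : Z | w.1 ∈ P} ↔ b ∉ {w : Z | w.1 ∈ P}) := by
      intro a b hab
      exact hP a.1 b.1 hab
    have hcopies : ∀ c : Copy (H.induce S₁) (G.induce Z),
        c ⟨v, hv1⟩ ∈ {w : Z | w.1 ∈ P} := by
      intro c
      obtain ⟨d, hd, hdZ⟩ := hZ (c ⟨x, hx1⟩) (c ⟨x, hx1⟩).2
      obtain ⟨e, he⟩ := exists_combine hS hcross ((Copy.induce G Z).comp c) d (by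
        intro a b
        have ha : ((Copy.induce G Z).comp c) a = (c a).1 := rfl
        rw [ha]
        constructor
        · intro hab
          have hb : b = ⟨x, hx2⟩ := by
            by_contra hb
            exact hdZ b hb (hab ▸ (c a).2)
          rw [hb, hd] at hab
          have := c.injective (Subtype.ext hab)
          rw [hb, this]
        · intro hab
          have hax : a.1 = x := hx a.1 a.2 (hab ▸ b.2)
          have ha' : a = ⟨x, hx1⟩ := Subtype.ext hax
          have hb' : b = ⟨x, hx2⟩ := Subtype.ext (hab ▸ hax)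
          rw [ha', hb', hd])
      have h5 := hc e
      rw [he v hv1 hv] at h5
      exact h5
    refine (hC₁ (G.induce Z) _ hproper hcopies).trans (Nat.mul_le_mul_left _ (hf ?_))
    simpa using set_fintype_card_le_univ Z)
  refine h3.trans (le_of_eq ?_)
  rw [Fintype.card_fin]
  ring

/-- Closure under adding disjoint parts. -/
theorem esf_disjoint {f : ℕ → ℕ} (hn : ∀ n, n ≤ f n)
    {W : Type*} [Finite W] {H : SimpleGraph W} (hD : Dom f H) {S₁ S₂ S : Set W}
    (hS : S₁ ∪ S₂ = S) (hcross : ∀ a ∈ S₁, ∀ b ∈ S₂, ¬ H.Adj a b)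
    {v : W} (hdis : Disjoint S₁ S₂)
    (hv1 : v ∈ S₁) (hv : v ∈ S) (h₁ : ESF f (H.induce S₁) ⟨v, hv1⟩) :
    ESF f (H.induce S) ⟨v, hv⟩ := by
  classical
  have : Fintype W := Fintype.ofFinite W
  obtain ⟨C₁, hC₁⟩ := h₁
  refine ⟨C₁ + (1 + Fintype.card S₂ ^ 2 + Fintype.card S₁), fun n G P hP hc => ?_⟩
  rcases Nat.eq_zero_or_pos n with hn0 | hn0
  · subst hn0
    have h0 : G.edgeSet = ∅ := by
      ext e
      induction e with | _ a b
      exact a.elim0
    rw [h0, Set.ncard_empty]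
    exact Nat.zero_le _
  rw [add_mul]
  by_cases hall : ∀ c : Copy (H.induce S₁) G, c ⟨v, hv1⟩ ∈ P
  · exact (hC₁ n G P hP hall).trans (Nat.le_add_right _ _)
  · push Not at hall
    obtain ⟨c, hcP⟩ := hall
    set Z : Set (Fin n) := (Set.range c)ᶜ with hZ
    have hfree : (H.induce S₂).Free (G.induce Z) := by
      rintro ⟨d⟩
      obtain ⟨e, he⟩ := exists_combine hS (fun a ha b hb hab => absurd hab (hcross a ha b hb))
        c ((Copy.induce G Z).comp d) (by
          intro a b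
          constructor
          · intro hab
            have h5 : (d b).1 ∈ Z := (d b).2
            exact absurd ⟨a, hab⟩ h5
          · intro hab
            exact absurd (hab ▸ b.2) (Set.disjoint_left.1 hdis a.2))
      have h5 := hc e
      rw [he v hv1 hv] at h5
      exact hcP h5
    have h1 := card_edgeFinset_le_extremalNumber hfree
    rw [← ncard_edgeSet] at h1
    have h2 : Fintype.card Z ≤ n := by simpa using set_fintype_card_le_univ Z
    have h3 := extremalNumber_le_add (H.induce S₂) h2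
    have h4 := hD.induce S₂ n
    have h5 := ncard_edgeSet_le_induce G Z
    rw [Fintype.card_fin] at h5
    have h6 : Zᶜ.ncard ≤ Fintype.card S₁ := by
      rw [hZ, compl_compl, Set.ncard_eq_toFinset_card', Set.toFinset_range]
      exact card_image_le
    have h7 : Zᶜ.ncard * n ≤ Fintype.card S₁ * n := Nat.mul_le_mul_right _ h6
    refine le_trans ?_ (Nat.le_add_left _ _)
    have h9 := hn n
    generalize extremalNumber n (H.induce S₂) = y at *
    generalize f n = z at *
    generalize Fintype.card S₁ = w at *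
    generalize Fintype.card S₂ ^ 2 = w' at *
    have h8 : w' ≤ w' * z := Nat.le_mul_of_pos_right _ (by omega)
    have h10 : w * n ≤ w * z := Nat.mul_le_mul_left _ h9
    nlinarith

theorem esf_of_esAt {f : ℕ → ℕ} (hn : ∀ n, n ≤ f n) {W : Type*} {H : SimpleGraph W}
    (hD : Dom f H) {r : W} (h : ESAt H r) : ESF f H r := by
  obtain ⟨C, hC⟩ := h
  refine ⟨2 * C, fun n G P hP hc => (hC n G P hP hc).trans ?_⟩
  have h1 := hD n
  have h2 := hn n
  nlinarith

/-- If all 2-connected blocks of `H[S]` satisfy `ESF f` at all their vertices, then so does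
`H[S]`. -/
theorem esf_of_blocks_aux {f : ℕ → ℕ} (hf : Monotone f) (hn : ∀ n, n ≤ f n)
    {W : Type*} [Finite W] (H : SimpleGraph W) (hD : Dom f H) :
    ∀ (k : ℕ) (S : Set W), S.ncard = k →
      (∀ B, B ⊆ S → TwoConn H B → (∀ B', B' ⊆ S → TwoConn H B' → B ⊆ B' → B' ⊆ B) →
        ∀ r (hr : r ∈ B), ESF f (H.induce B) ⟨r, hr⟩) →
      ∀ v (hv : v ∈ S), ESF f (H.induce S) ⟨v, hv⟩ := by
  intro k
  induction k using Nat.strong_induction_on with
  | _ k ih =>
    intro S hSk hyp v hv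
    rcases le_or_gt S.ncard 2 with h2 | h2
    · exact esf_of_esAt hn (hD.induce S) (esAt_small h2 hv)
    by_cases hsep : ∃ S₁ S₂, Sep H S S₁ S₂
    · -- inheritance of the hypothesis
      have inh : ∀ S₁ S₂, Sep H S S₁ S₂ → ∀ w (hw : w ∈ S₁), ESF f (H.induce S₁) ⟨w, hw⟩ := by
        intro S₁ S₂ hs w hw
        have hs' := hs
        obtain ⟨hU, hne1, hne2, hsub, hcross⟩ := hs'
        have hS₁ : S₁ ⊆ S := hU ▸ Set.subset_union_left
        have hlt : S₁.ncard < k := by
          rw [← hSk]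
          exact Set.ncard_lt_ncard (hS₁.ssubset_of_ne hne1) (Set.toFinite S)
        refine ih _ hlt S₁ rfl ?_ w hw
        intro B hB hBc hmax r hr
        refine hyp B (hB.trans hS₁) hBc ?_ r hr
        intro B' hB' hB'c hBB'
        rcases hB'c.subset_of_sep hB' hs with h3 | h3
        · exact hmax B' h3 hB'c hBB'
        · exfalso
          have h4 : B ⊆ S₁ ∩ S₂ := fun b hb => ⟨hB hb, h3 (hBB' hb)⟩
          have h5 : B.ncard ≤ 1 := Set.ncard_le_one_iff_subsingleton.2 (hsub.anti h4)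
          have h6 := hBc.1
          omega
      have step : ∀ S₁ S₂, Sep H S S₁ S₂ → v ∈ S₁ → ESF f (H.induce S) ⟨v, hv⟩ := by
        intro S₁ S₂ hs hv1
        have h1 := inh S₁ S₂ hs v hv1
        have hs' := hs
        obtain ⟨hU, hne1, hne2, hsub, hcross⟩ := hs'
        rcases Set.eq_empty_or_nonempty (S₁ ∩ S₂) with h0 | ⟨x, hx⟩
        · refine esf_disjoint hn hD hU ?_ (Set.disjoint_iff_inter_eq_empty.2 h0) hv1 hv h1
          intro a ha b hb hab
          rcases hcross a ha b hb hab with h3 | h3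
          · exact (h0.subset ⟨ha, h3⟩ : a ∈ (∅ : Set W))
          · exact (h0.subset ⟨h3, hb⟩ : b ∈ (∅ : Set W))
        · exact esf_cut hf hn hD hU hcross hx.1 hx.2 (fun a ha1 ha2 => hsub ⟨ha1, ha2⟩ hx) hv1 hv
            h1 (inh S₂ S₁ hs.symm x hx.2)
      obtain ⟨S₁, S₂, hs⟩ := hsep
      have hvU : v ∈ S₁ ∪ S₂ := hs.1.symm.subset hv
      rcases hvU with h | h
      · exact step S₁ S₂ hs h
      · exact step S₂ S₁ hs.symm h
    · exact hyp S subset_rfl (twoConn_of_not_sep (by omega) hsep) (fun B' hB' _ _ => hB') v hv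

theorem ESF.of_iso {f : ℕ → ℕ} {W W' : Type*} {H : SimpleGraph W} {H' : SimpleGraph W'} {r : W}
    (e : H ≃g H') (h : ESF f H r) : ESF f H' (e r) := by
  obtain ⟨C, hC⟩ := h
  refine ⟨C, fun n G P hP hc => hC n G P hP fun c => ?_⟩
  have h2 := hc (c.comp e.symm.toCopy)
  have h3 : (c.comp e.symm.toCopy) (e r) = c (e.symm (e r)) := rfl
  rw [h3, e.symm_apply_apply] at h2
  exact h2

/-- The block theorem. -/
theorem esf_of_isBlock {f : ℕ → ℕ} (hf : Monotone f) (hn : ∀ n, n ≤ f n)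
    {W : Type*} [Finite W] (H : SimpleGraph W) (hD : Dom f H)
    (h : ∀ B, IsBlock H B → ∀ r : B, ESF f (H.induce B) r) (v : W) : ESF f H v := by
  have h1 := esf_of_blocks_aux hf hn H hD _ Set.univ rfl (fun B _ hB hmax r hr =>
    h B ⟨hB, fun B' hB' hBB' => hmax B' (Set.subset_univ _) hB' hBB'⟩ ⟨r, hr⟩) v
    (Set.mem_univ v)
  exact h1.of_iso (SimpleGraph.induceUnivIso H)

end H15DRC
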