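import Mathlib

/-!
# Dependent random choice for a relation, and embedding of bipartite graphs in which one colour
class has degrees at most `s`
-/

set_option autoImplicit false

namespace H15DRC

open Finset

variable {V : Type*} [Fintype V] [DecidableEq V] (r : V → V → Prop) [DecidableRel r]

/-- The common `r`-partners of `S`. -/
def com (S : Finset V) : Finset V := univ.filter fun a => ∀ b ∈ S, r a b

/-- The vertices `b` which are `r`-partners of all entries of `t`. -/
def nb {s : ℕ} (t : Fin s → V) : Finset V := univ.filter fun b => ∀ i, r (t i) b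

theorem card_tuples (s : ℕ) (S : Finset V) :
    #(univ.filter fun t : Fin s → V => S ⊆ nb r t) = #(com r S) ^ s := by
  have h : (univ.filter fun t : Fin s → V => S ⊆ nb r t)
      = Fintype.piFinset fun _ : Fin s => com r S := by
    ext t
    rw [mem_filter, Fintype.mem_piFinset]
    constructor
    · rintro ⟨-, h⟩ i
      rw [com, mem_filter]
      exact ⟨mem_univ _, fun b hb => (mem_filter.1 (h hb)).2 i⟩
    · intro h
      refine ⟨mem_univ _, fun b hb => ?_⟩
      rw [nb, mem_filter]
      exact ⟨mem_univ _, fun i => (mem_filter.1 (h i)).2 b hb⟩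
  rw [h, Fintype.card_piFinset_const]

theorem card_tuples_mem (s : ℕ) (b : V) :
    #(univ.filter fun t : Fin s → V => b ∈ nb r t) = #(univ.filter fun a => r a b) ^ s := by
  have h := card_tuples r s {b}
  have h1 : com r {b} = univ.filter fun a => r a b := by
    ext a
    simp [com]
  rw [h1] at h
  rw [← h]
  congr 1
  ext t
  simp

/-- Dependent random choice: if the relation has many pairs, there is a set `U` with at least `k`
elements such that every subset of `U` with `s` elements has at least `m` common partners. -/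
theorem exists_set {s m k : ℕ} (hs : 1 ≤ s) (hV : 0 < Fintype.card V)
    (he : (m ^ s + k) * Fintype.card V ^ (2 * s - 1)
      ≤ (∑ b : V, #(univ.filter fun a => r a b)) ^ s) :
    ∃ U : Finset V, k ≤ #U ∧ ∀ S ⊆ U, #S = s → m ≤ #(com r S) := by
  classical
  set n := Fintype.card V with hn
  obtain ⟨q, rfl⟩ : ∃ q, s = q + 1 := ⟨s - 1, by omega⟩
  set bad : Finset (Finset V) := (powersetCard (q + 1) univ).filter fun S => #(com r S) < m
    with hbad
  -- the total size
  have h1 : ∑ t : Fin (q + 1) → V, #(nb r t) = ∑ b : V, #(univ.filter fun a => r a b) ^ (q + 1) := by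
    have h2 : ∀ t : Fin (q + 1) → V, #(nb r t) = ∑ b : V, if b ∈ nb r t then 1 else 0 := by
      intro t
      rw [sum_boole, Nat.cast_id]
      congr 1
      ext b
      simp
    rw [sum_congr rfl fun t _ => h2 t, sum_comm]
    refine sum_congr rfl fun b _ => ?_
    rw [sum_boole, Nat.cast_id, card_tuples_mem]
  have h3 : ∑ t : Fin (q + 1) → V, #(bad.filter fun S => S ⊆ nb r t)
      = ∑ S ∈ bad, #(com r S) ^ (q + 1) := by
    have h2 : ∀ t : Fin (q + 1) → V, #(bad.filter fun S => S ⊆ nb r t)
        = ∑ S ∈ bad, if S ⊆ nb r t then 1 else 0 := by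
      intro t
      rw [sum_boole, Nat.cast_id]
    rw [sum_congr rfl fun t _ => h2 t, sum_comm]
    refine sum_congr rfl fun b _ => ?_
    rw [sum_boole, Nat.cast_id, card_tuples]
  have h4 : ∑ S ∈ bad, #(com r S) ^ (q + 1) ≤ n ^ (q + 1) * m ^ (q + 1) := by
    calc ∑ S ∈ bad, #(com r S) ^ (q + 1) ≤ ∑ S ∈ bad, m ^ (q + 1) :=
          sum_le_sum fun S hS => Nat.pow_le_pow_left (mem_filter.1 hS).2.le _
      _ = #(bad) * m ^ (q + 1) := by rw [sum_const, smul_eq_mul]
      _ ≤ n ^ (q + 1) * m ^ (q + 1) := by
          refine Nat.mul_le_mul_right _ ?_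
          calc #(bad) ≤ #(powersetCard (q + 1) (univ : Finset V)) := card_le_card (filter_subset _ _)
            _ = n.choose (q + 1) := by rw [card_powersetCard, card_univ]
            _ ≤ n ^ (q + 1) := Nat.choose_le_pow _ _
  -- Jensen
  have h5 : (∑ b : V, #(univ.filter fun a => r a b)) ^ (q + 1)
      ≤ n ^ q * ∑ b : V, #(univ.filter fun a => r a b) ^ (q + 1) := by
    have h6 := pow_sum_le_card_mul_sum_pow (s := (univ : Finset V))
      (f := fun b => #(univ.filter fun a => r a b)) (fun i _ => Nat.zero_le _) q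
    rwa [card_univ] at h6
  have h6 : (m ^ (q + 1) + k) * n ^ (q + 1) ≤ ∑ t : Fin (q + 1) → V, #(nb r t) := by
    rw [h1]
    have h7 : n ^ q * ((m ^ (q + 1) + k) * n ^ (q + 1))
        ≤ n ^ q * ∑ b : V, #(univ.filter fun a => r a b) ^ (q + 1) := by
      refine le_trans (le_of_eq ?_) (he.trans h5)
      have h8 : 2 * (q + 1) - 1 = q + (q + 1) := by omega
      rw [h8, pow_add]
      ring
    exact Nat.le_of_mul_le_mul_left h7 (pow_pos hV q)
  -- choose t
  have h7 : ∃ t : Fin (q + 1) → V, #(bad.filter fun S => S ⊆ nb r t) + k ≤ #(nb r t) := by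
    by_contra hcon
    push Not at hcon
    have hne : (univ : Finset (Fin (q + 1) → V)).Nonempty := by
      obtain ⟨v⟩ := Fintype.card_pos_iff.1 hV
      exact ⟨fun _ => v, mem_univ _⟩
    have h8 : ∑ t : Fin (q + 1) → V, #(nb r t)
        < ∑ t : Fin (q + 1) → V, (#(bad.filter fun S => S ⊆ nb r t) + k) :=
      sum_lt_sum_of_nonempty hne fun t _ => hcon t
    rw [sum_add_distrib, h3, sum_const, smul_eq_mul, card_univ, Fintype.card_fun,
      Fintype.card_fin, ← hn] at h8
    nlinarith [h4, h6, h8]
  obtain ⟨t, ht⟩ := h7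
  set B := bad.filter fun S => S ⊆ nb r t with hB
  have hne : ∀ S ∈ bad, S.Nonempty := by
    intro S hS
    have h8 := (mem_powersetCard.1 (mem_filter.1 hS).1).2
    exact card_pos.1 (by omega)
  set pick : Finset V → V := fun S => if h : S.Nonempty then h.choose else
    (Fintype.card_pos_iff.1 hV).some with hpick
  have hpm : ∀ S ∈ bad, pick S ∈ S := by
    intro S hS
    rw [hpick]
    simp only [hne S hS, dite_true]
    exact (hne S hS).choose_spec
  refine ⟨nb r t \ B.image pick, ?_, ?_⟩
  · have h8 := le_card_sdiff (B.image pick) (nb r t)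
    have h9 : #(B.image pick) ≤ #B := card_image_le
    omega
  · intro S hS hc
    by_contra hlt
    push Not at hlt
    have hb : S ∈ bad := by
      rw [hbad, mem_filter, mem_powersetCard]
      exact ⟨⟨subset_univ _, hc⟩, hlt⟩
    have h8 : S ∈ B := by
      rw [hB, mem_filter]
      exact ⟨hb, hS.trans sdiff_subset⟩
    exact (mem_sdiff.1 (hS (hpm S hb))).2 (mem_image_of_mem _ h8)

end H15DRC
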