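import Pool.Agent.Lib.H15DRC.Drc

/-!
# Embedding a bipartite graph, one class of which has degrees at most `s`, in both orientations
-/

set_option autoImplicit false

namespace H15DRC

open Finset

theorem exists_emb {V : Type*} [Fintype V] [DecidableEq V] (r : V → V → Prop) [DecidableRel r]
    {W : Type*} [Fintype W] (H : SimpleGraph W) (X : W → Prop)
    (hX : ∀ x y, H.Adj x y → (X x ↔ ¬ X y)) {s : ℕ} (hs : 1 ≤ s)
    (hd : ∀ x, X x → {y | H.Adj x y}.ncard ≤ s) (hn : ∀ x, ∃ y, H.Adj x y)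
    (P : V → Prop) (hP : ∀ a b, r a b → P a ∧ ¬ P b) (hV : 0 < Fintype.card V)
    (he : (Fintype.card W ^ s + (Fintype.card W + s)) * Fintype.card V ^ (2 * s - 1)
      ≤ (∑ b : V, #(univ.filter fun a => r a b)) ^ s) :
    ∃ f : W → V, Function.Injective f ∧
      (∀ x y, X x → H.Adj x y → r (f x) (f y)) ∧ ∀ x, X x ↔ P (f x) := by
  classical
  obtain ⟨U, hU, hcom⟩ := exists_set r hs hV he
  -- embed the second class into U
  have h1 : Fintype.card {y : W // ¬ X y} ≤ Fintype.card U := by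
    rw [Fintype.card_coe]
    exact (Fintype.card_subtype_le _).trans (by omega)
  obtain ⟨g⟩ := Function.Embedding.nonempty_of_card_le h1
  -- the images of the neighbourhoods
  set S : {x : W // X x} → Finset V := fun x =>
    (univ.filter fun y : {y : W // ¬ X y} => H.Adj x y).image fun y => (g y : V) with hS
  have hSU : ∀ x, S x ⊆ U := by
    intro x v hv
    obtain ⟨y, -, rfl⟩ := mem_image.1 hv
    exact (g y).2
  have hSc : ∀ x, #(S x) ≤ s := by
    intro x
    have h2 := hd x x.2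
    have h3 : {y | H.Adj (x : W) y} = ((univ.filter fun y : W => H.Adj x y : Finset W) : Set W) := by
      ext y
      simp
    rw [h3, Set.ncard_coe_finset] at h2
    refine (card_image_le.trans ?_).trans h2
    refine card_le_card_of_injOn (fun y : {y : W // ¬ X y} => (y : W)) ?_ ?_
    · intro y hy
      have h4 := (mem_filter.1 (mem_coe.1 hy)).2
      exact mem_coe.2 (mem_filter.2 ⟨mem_univ _, h4⟩)
    · exact fun a _ b _ h => Subtype.ext h
  have hbig : ∀ x, Fintype.card W ≤ #(com r (S x)) := by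
    intro x
    obtain ⟨T, hT1, hT2, hT3⟩ := exists_subsuperset_card_eq (hSU x) (hSc x) (by omega : s ≤ #U)
    refine (hcom T hT2 hT3).trans (card_le_card fun a ha => ?_)
    rw [com, mem_filter] at ha ⊢
    exact ⟨mem_univ _, fun b hb => ha.2 b (hT1 hb)⟩
  obtain ⟨h, hinj, hmem⟩ := (all_card_le_biUnion_card_iff_exists_injective
      (fun x : {x : W // X x} => com r (S x))).1 (by
    intro A
    rcases A.eq_empty_or_nonempty with rfl | ⟨a, ha⟩
    · simp
    · calc #A ≤ Fintype.card {x : W // X x} := card_le_univ _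
        _ ≤ Fintype.card W := Fintype.card_subtype_le _
        _ ≤ #(com r (S a)) := hbig a
        _ ≤ #(A.biUnion fun x => com r (S x)) :=
          card_le_card (subset_biUnion_of_mem (fun x => com r (S x)) ha))
  have hr : ∀ (x : {x : W // X x}) (y : {y : W // ¬ X y}), H.Adj x y → r (h x) (g y) := by
    intro x y hxy
    have h2 := (mem_filter.1 (hmem x)).2
    exact h2 _ (mem_image.2 ⟨y, mem_filter.2 ⟨mem_univ _, hxy⟩, rfl⟩)
  have hPh : ∀ x, P (h x) := by
    intro x
    obtain ⟨y, hy⟩ := hn x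
    have hy' : ¬ X y := (hX _ _ hy).1 x.2
    exact (hP _ _ (hr x ⟨y, hy'⟩ hy)).1
  have hPg : ∀ y, ¬ P (g y) := by
    intro y
    obtain ⟨x, hx⟩ := hn y
    have hx' : X x := by
      by_contra hcon
      exact y.2 ((hX _ _ hx).2 hcon)
    exact (hP _ _ (hr ⟨x, hx'⟩ y hx.symm)).2
  refine ⟨fun w => if hw : X w then h ⟨w, hw⟩ else (g ⟨w, hw⟩ : V), ?_, ?_, ?_⟩
  · intro a b hab
    by_cases ha : X a <;> by_cases hb : X b
    · simp only [ha, hb, dite_true] at hab
      exact congrArg Subtype.val (hinj hab)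
    · simp only [ha, hb, dite_true, dite_false] at hab
      exact absurd (hab ▸ hPh ⟨a, ha⟩) (hPg ⟨b, hb⟩)
    · simp only [ha, hb, dite_true, dite_false] at hab
      exact absurd (hab ▸ hPh ⟨b, hb⟩) (hPg ⟨a, ha⟩)
    · simp only [ha, hb, dite_false] at hab
      exact congrArg Subtype.val (g.injective (Subtype.ext hab))
  · intro x y hx hxy
    have hy : ¬ X y := (hX _ _ hxy).1 hx
    simp only [hx, hy, dite_true, dite_false]
    exact hr ⟨x, hx⟩ ⟨y, hy⟩ hxy
  · intro x
    by_cases hx : X x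
    · simp only [hx, dite_true, true_iff]
      exact hPh ⟨x, hx⟩
    · simp only [hx, dite_false, false_iff]
      exact hPg ⟨x, hx⟩

/-- Both orientations: if `G` is bipartite with classes `P` and its complement and has many
edges, then it contains a copy of `H` with `X` in `P`, and a copy with `X` outside `P`. -/
theorem exists_copies {W : Type*} [Fintype W] (H : SimpleGraph W) (X : Set W)
    (hX : ∀ x y, H.Adj x y → (x ∈ X ↔ y ∉ X)) {s : ℕ} (hs : 1 ≤ s)
    (hd : ∀ x ∈ X, {y | H.Adj x y}.ncard ≤ s) (hn : ∀ x, ∃ y, H.Adj x y)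
    {V : Type*} [Fintype V] (G : SimpleGraph V) (P : Set V)
    (hP : ∀ a b, G.Adj a b → (a ∈ P ↔ b ∉ P)) (hV : 0 < Fintype.card V)
    (he : (Fintype.card W ^ s + (Fintype.card W + s)) * Fintype.card V ^ (2 * s - 1)
      ≤ G.edgeSet.ncard ^ s) :
    (∃ c : SimpleGraph.Copy H G, ∀ x, x ∈ X ↔ c x ∈ P) ∧
      ∃ c : SimpleGraph.Copy H G, ∀ x, x ∈ X ↔ c x ∉ P := by
  classical
  have key : ∀ Q : Set V, (∀ a b, G.Adj a b → (a ∈ Q ↔ b ∉ Q)) →
      ∃ c : SimpleGraph.Copy H G, ∀ x, x ∈ X ↔ c x ∈ Q := by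
    intro Q hQ
    have h1 : G.edgeSet.ncard ≤ ∑ b : V, #(univ.filter fun a => G.Adj a b ∧ a ∈ Q) := by
      have h2 : G.edgeSet ⊆ (((univ.filter fun p : V × V => G.Adj p.1 p.2 ∧ p.1 ∈ Q).image
          fun p => s(p.1, p.2) : Finset (Sym2 V)) : Set (Sym2 V)) := by
        intro e
        refine Sym2.ind (fun a b hab => ?_) e
        rw [SimpleGraph.mem_edgeSet] at hab
        rw [mem_coe, mem_image]
        by_cases ha : a ∈ Q
        · exact ⟨(a, b), mem_filter.2 ⟨mem_univ _, hab, ha⟩, rfl⟩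
        · have hb : b ∈ Q := by
            by_contra hb
            exact ha ((hQ _ _ hab).2 hb)
          exact ⟨(b, a), mem_filter.2 ⟨mem_univ _, hab.symm, hb⟩, Sym2.eq_swap⟩
      have h3 := Set.ncard_le_ncard h2 (Set.toFinite _)
      rw [Set.ncard_coe_finset] at h3
      refine h3.trans (card_image_le.trans (le_of_eq ?_))
      rw [card_filter, Fintype.sum_prod_type_right]
      refine sum_congr rfl fun b _ => ?_
      rw [card_filter]
    obtain ⟨f, hf, hadj, hside⟩ := exists_emb (fun a b => G.Adj a b ∧ a ∈ Q) H (fun x => x ∈ X)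
      hX hs hd hn (fun a => a ∈ Q) (fun a b hab => ⟨hab.2, (hQ _ _ hab.1).1 hab.2⟩) hV
      (he.trans (Nat.pow_le_pow_left h1 s))
    refine ⟨⟨⟨f, fun {x y} hxy => ?_⟩, hf⟩, hside⟩
    by_cases hx : x ∈ X
    · exact (hadj x y hx hxy).1
    · have hy : y ∈ X := by
        by_contra hy
        exact hx ((hX _ _ hxy).2 hy)
      exact (hadj y x hy hxy.symm).1.symm
  refine ⟨key P hP, ?_⟩
  obtain ⟨c, hc⟩ := key Pᶜ fun a b hab => by
    rw [Set.mem_compl_iff, Set.mem_compl_iff, not_not]
    have := hP a b hab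
    tauto
  exact ⟨c, fun x => hc x⟩

end H15DRC
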