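import Pool.Agent.Lib.H15DRC.Cut
import Pool.Agent.Lib.H15DRC.Emb

/-!
# Blocks which are symmetric or have a colour class of small degrees
-/

set_option autoImplicit false
set_option linter.unusedSectionVars false

namespace H15DRC

open SimpleGraph Finset Filter Asymptotics Pool.Agent.Lib.Helper15.Glue

variable {V₁ V₂ : Type*} [Fintype V₁] [Fintype V₂]

/-- The monotone bound. -/
noncomputable def ff (H₁ : SimpleGraph V₁) (H₂ : SimpleGraph V₂) (n : ℕ) : ℕ :=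
  (range (n + 1)).sup (fun k => extremalNumber k H₁ + extremalNumber k H₂) + n

theorem ff_mono (H₁ : SimpleGraph V₁) (H₂ : SimpleGraph V₂) : Monotone (ff H₁ H₂) := by
  intro a b hab
  refine Nat.add_le_add (Finset.sup_mono fun k hk => ?_) hab
  rw [mem_range] at hk ⊢
  omega

theorem le_ff (H₁ : SimpleGraph V₁) (H₂ : SimpleGraph V₂) (n : ℕ) : n ≤ ff H₁ H₂ n :=
  Nat.le_add_left _ _

theorem add_le_ff (H₁ : SimpleGraph V₁) (H₂ : SimpleGraph V₂) (n : ℕ) :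
    extremalNumber n H₁ + extremalNumber n H₂ ≤ ff H₁ H₂ n := by
  refine le_trans ?_ (Nat.le_add_right _ _)
  exact Finset.le_sup (f := fun k => extremalNumber k H₁ + extremalNumber k H₂)
    (mem_range.2 (Nat.lt_succ_self n))

theorem dom_ff (H₁ : SimpleGraph V₁) (H₂ : SimpleGraph V₂) : Dom (ff H₁ H₂) H₂ := fun n =>
  le_trans (Nat.le_add_left _ _) (add_le_ff H₁ H₂ n)

theorem ff_le (H₁ : SimpleGraph V₁) (H₂ : SimpleGraph V₂) (n : ℕ) :
    ff H₁ H₂ n ≤ extremalNumber n H₁ + extremalNumber n H₂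
      + (Fintype.card V₁ ^ 2 + Fintype.card V₂ ^ 2) + n := by
  refine Nat.add_le_add_right (Finset.sup_le fun k hk => ?_) _
  have hk' : k ≤ n := by
    rw [mem_range] at hk
    omega
  have h1 := extremalNumber_le_add H₁ hk'
  have h2 := extremalNumber_le_add H₂ hk'
  omega

/-- A connected-enough bipartite graph with a colour class of degrees at most `s` satisfies
`ESF f` at all vertices if `n ^ (2 - 1 / s)` is of order at most `f`. -/
theorem esf_of_degree {f : ℕ → ℕ} (hn : ∀ n, n ≤ f n) {F : ℕ → ℝ} (hF : ∀ n, F n ≤ f n)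
    (hF0 : ∀ n, 0 ≤ F n)
    {W : Type*} [Finite W] (H : SimpleGraph W) (X : Set W)
    (hX : ∀ x y, H.Adj x y → (x ∈ X ↔ y ∉ X)) {s : ℕ} (hs : 1 ≤ s)
    (hd : ∀ x ∈ X, {y | H.Adj x y}.ncard ≤ s) (hne : ∀ x, ∃ y, H.Adj x y)
    (hO : (fun n : ℕ => (n : ℝ) ^ (2 - 1 / (s : ℝ))) =O[atTop] F) (r : W) : ESF f H r := by
  classical
  have : Fintype W := Fintype.ofFinite W
  obtain ⟨K, hK⟩ := hO.bound
  obtain ⟨N, hN⟩ := eventually_atTop.1 hK
  set L : ℕ := Fintype.card W ^ s + (Fintype.card W + s) with hL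
  have hL1 : 1 ≤ L := by omega
  refine ⟨L * ⌈|K|⌉₊ + N, fun n G P hP hc => ?_⟩
  rcases Nat.eq_zero_or_pos n with hn0 | hn0
  · subst hn0
    have h0 : G.edgeSet = ∅ := by
      ext e
      induction e with | _ a b
      exact a.elim0
    rw [h0, Set.ncard_empty]
    exact Nat.zero_le _
  rcases lt_or_ge n N with hlt | hge
  · calc G.edgeSet.ncard = #G.edgeFinset := ncard_edgeSet G
      _ ≤ (Fintype.card (Fin n)).choose 2 := card_edgeFinset_le_card_choose_two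
      _ = n.choose 2 := by rw [Fintype.card_fin]
      _ ≤ n ^ 2 := Nat.choose_le_pow n 2
      _ = n * n := sq n
      _ ≤ (L * ⌈|K|⌉₊ + N) * f n := Nat.mul_le_mul (by omega) (hn n)
  · by_contra hcon
    push Not at hcon
    have h1 : (L * ⌈|K|⌉₊) * f n ≤ G.edgeSet.ncard :=
      le_trans (Nat.mul_le_mul_right _ (Nat.le_add_right _ _)) hcon.le
    have h2 : (n : ℝ) ^ (2 - 1 / (s : ℝ)) ≤ ⌈|K|⌉₊ * f n := by
      have h3 := hN n hge
      rw [Real.norm_of_nonneg (by positivity), Real.norm_of_nonneg (hF0 n)] at h3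
      refine h3.trans ?_
      have h4 : K ≤ (⌈|K|⌉₊ : ℝ) := (le_abs_self K).trans (Nat.le_ceil _)
      have h5 : (0 : ℝ) ≤ (⌈|K|⌉₊ : ℝ) := Nat.cast_nonneg _
      calc K * F n ≤ (⌈|K|⌉₊ : ℝ) * F n := mul_le_mul_of_nonneg_right h4 (hF0 n)
        _ ≤ (⌈|K|⌉₊ : ℝ) * f n := mul_le_mul_of_nonneg_left (hF n) h5
    have h3 : (L : ℝ) * (n : ℝ) ^ (2 - 1 / (s : ℝ)) ≤ (G.edgeSet.ncard : ℝ) := by
      have h4 : ((L * ⌈|K|⌉₊ * f n : ℕ) : ℝ) ≤ (G.edgeSet.ncard : ℝ) := by exact_mod_cast h1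
      refine le_trans ?_ h4
      push_cast
      calc (L : ℝ) * (n : ℝ) ^ (2 - 1 / (s : ℝ)) ≤ (L : ℝ) * (⌈|K|⌉₊ * f n) :=
            mul_le_mul_of_nonneg_left h2 (Nat.cast_nonneg _)
        _ = _ := by ring
    have hsr : (0 : ℝ) < (s : ℝ) := by exact_mod_cast hs
    have h4 : ((n : ℝ) ^ (2 - 1 / (s : ℝ))) ^ s = (n : ℝ) ^ (2 * s - 1) := by
      rw [← Real.rpow_mul_natCast (Nat.cast_nonneg n)]
      have h5 : (2 - 1 / (s : ℝ)) * (s : ℝ) = ((2 * s - 1 : ℕ) : ℝ) := by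
        rw [Nat.cast_sub (by omega)]
        push_cast
        field_simp
      rw [h5, Real.rpow_natCast]
    have h5 : (L * n ^ (2 * s - 1) : ℕ) ≤ G.edgeSet.ncard ^ s := by
      have h6 : ((L : ℝ) * (n : ℝ) ^ (2 - 1 / (s : ℝ))) ^ s ≤ (G.edgeSet.ncard : ℝ) ^ s :=
        pow_le_pow_left₀ (by positivity) h3 s
      rw [mul_pow, h4] at h6
      have h7 : (L : ℝ) * (n : ℝ) ^ (2 * s - 1) ≤ (L : ℝ) ^ s * (n : ℝ) ^ (2 * s - 1) := by
        refine mul_le_mul_of_nonneg_right ?_ (by positivity)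
        have h8 : (1 : ℝ) ≤ (L : ℝ) := by exact_mod_cast hL1
        exact le_self_pow₀ h8 (by omega)
      exact_mod_cast h7.trans h6
    obtain ⟨⟨c, hc1⟩, ⟨d, hd1⟩⟩ := exists_copies H X hX hs hd hne G P hP
      (by rw [Fintype.card_fin]; exact hn0) (by rw [Fintype.card_fin]; exact h5)
    by_cases hr : r ∈ X
    · exact (hd1 r).1 hr (hc d)
    · exact hr ((hc1 r).2 (hc c))

/-- THE THEOREM. -/
theorem isTheta_of_blocks (H₁ : SimpleGraph V₁) (H₂ : SimpleGraph V₂) (u : V₁) (v : V₂)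
    (h₁ : 1 ≤ H₁.edgeSet.ncard) (h₂ : 1 ≤ H₂.edgeSet.ncard)
    (h₃ : 3 ≤ H₁.edgeSet.ncard + H₂.edgeSet.ncard)
    (hB : ∀ B : Set V₂, IsBlock H₂ B →
      (∀ r : B, ∃ φ : H₂.induce B ≃g H₂.induce B, ∃ p : (H₂.induce B).Walk r (φ r),
        Odd p.length) ∨
      ∃ (X : Set B) (s : ℕ), 1 ≤ s ∧ (∀ x y, (H₂.induce B).Adj x y → (x ∈ X ↔ y ∉ X)) ∧
        (∀ x ∈ X, {y | (H₂.induce B).Adj x y}.ncard ≤ s) ∧
        (fun n : ℕ => (n : ℝ) ^ (2 - 1 / (s : ℝ))) =O[atTop]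
          fun n : ℕ => (extremalNumber n H₁ + extremalNumber n H₂ : ℝ)) :
    (fun n : ℕ => (extremalNumber n (glue H₁ u H₂ v) : ℝ)) =Θ[atTop]
      fun n : ℕ => (extremalNumber n H₁ + extremalNumber n H₂ : ℝ) := by
  have hD := dom_ff H₁ H₂
  have key : ESF (ff H₁ H₂) H₂ v := by
    refine esf_of_isBlock (ff_mono H₁ H₂) (le_ff H₁ H₂) H₂ hD (fun B hBB r => ?_) v
    rcases hB B hBB with h | ⟨X, s, hs, hX, hd, hO⟩
    · obtain ⟨φ, p, hp⟩ := h r
      exact esf_of_esAt (le_ff H₁ H₂) (hD.induce B) (esAt_of_swapAt ⟨φ.toCopy, p, hp⟩)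
    · refine esf_of_degree (le_ff H₁ H₂) (F := fun n => extremalNumber n H₁ + extremalNumber n H₂)
        (fun n => ?_) (fun n => by positivity) (H₂.induce B) X hX hs hd (fun x => ?_) hO r
      · exact_mod_cast add_le_ff H₁ H₂ n
      · obtain ⟨y, hy⟩ := hBB.prop.exists_adj x
        exact ⟨y, hy.symm⟩
  obtain ⟨C, hC⟩ := key.extremalNumber_glue_le (H₁ := H₁) (u := u) (ff_mono H₁ H₂) (le_ff H₁ H₂) hD
  refine isTheta_of_le h₁ h₂ h₃
    (C := C * (Fintype.card V₁ ^ 2 + Fintype.card V₂ ^ 2 + 2)) fun n => ?_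
  rcases Nat.eq_zero_or_pos n with hn0 | hn0
  · subst hn0
    have h5 := hC 0
    have h6 : ff H₁ H₂ 0 = extremalNumber 0 H₁ + extremalNumber 0 H₂ := by
      simp [ff]
    rw [h6] at h5
    refine h5.trans ?_
    rw [mul_assoc]
    refine Nat.mul_le_mul_left _ ?_
    generalize extremalNumber 0 H₁ = x
    generalize extremalNumber 0 H₂ = y
    generalize Fintype.card V₁ ^ 2 + Fintype.card V₂ ^ 2 = w
    nlinarith [Nat.zero_le (w * (x + y))]
  · refine (hC n).trans ?_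
    rw [mul_assoc]
    refine Nat.mul_le_mul_left _ ?_
    have h5 := ff_le H₁ H₂ n
    generalize extremalNumber n H₁ = x at *
    generalize extremalNumber n H₂ = y at *
    generalize Fintype.card V₁ ^ 2 + Fintype.card V₂ ^ 2 = w at *
    have h6 : w ≤ w * (x + y + n) := Nat.le_mul_of_pos_right _ (by omega)
    nlinarith

end H15DRC
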