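import Pool.Agent.Lib.H15DRC.Brown
import Pool.Agent.Lib.Helper15.Glue.Ex

/-!
# The lower bound for graphs containing K_(3,3)
-/

set_option autoImplicit false

namespace H15DRC

open SimpleGraph Finset Filter Asymptotics Pool.Agent.Lib.Helper15.Glue

/-- `v1 v2 + v3 ^ 2` at the difference. -/
def QQ {F : Type*} [Field F] (a b : F × F × F) : F :=
  (a.1 - b.1) * (a.2.1 - b.2.1) + (a.2.2 - b.2.2) ^ 2

theorem QQ_comm {F : Type*} [Field F] (a b : F × F × F) : QQ a b = QQ b a := by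
  unfold QQ
  ring

/-- The bipartite form of Brown's graph. -/
def browG (F : Type*) [Field F] (g : F) : SimpleGraph ((F × F × F) ⊕ (F × F × F)) where
  Adj a b := match a, b with
    | Sum.inl p, Sum.inr l => QQ p l = g
    | Sum.inr l, Sum.inl p => QQ p l = g
    | _, _ => False
  symm := ⟨by
    rintro (a | a) (b | b) h <;> simp at h ⊢ <;> exact h⟩
  loopless := ⟨by
    rintro (a | a) h <;> simp at h⟩

theorem browG_free (F : Type*) [Field F] (h2 : (2 : F) ≠ 0) (g : F) (hg : ¬ IsSquare g) :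
    (completeBipartiteGraph (Fin 3) (Fin 3)).Free (browG F g) := by
  rintro ⟨c⟩
  have hadj : ∀ i j : Fin 3, (browG F g).Adj (c (Sum.inl i)) (c (Sum.inr j)) := fun i j =>
    c.toHom.map_adj (by simp)
  have hl : ∀ i j : Fin 3, c (Sum.inl i) = c (Sum.inl j) → i = j := fun i j h =>
    Sum.inl_injective (c.injective h)
  have hr : ∀ i j : Fin 3, c (Sum.inr i) = c (Sum.inr j) → i = j := fun i j h =>
    Sum.inr_injective (c.injective h)
  rcases h0 : c (Sum.inl 0) with a | a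
  · -- left vertices go left
    have hR : ∀ j, ∃ b, c (Sum.inr j) = Sum.inr b := by
      intro j
      have h := hadj 0 j
      rcases h1 : c (Sum.inr j) with b | b
      · rw [h0, h1] at h
        exact absurd h (by simp [browG])
      · exact ⟨b, rfl⟩
    have hL : ∀ i, ∃ b, c (Sum.inl i) = Sum.inl b := by
      intro i
      have h := hadj i 0
      obtain ⟨b, hb⟩ := hR 0
      rcases h1 : c (Sum.inl i) with e | e
      · exact ⟨e, rfl⟩
      · rw [hb, h1] at h
        exact absurd h (by simp [browG])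
    choose y hy using hR
    choose x hx using hL
    refine brown_core h2 g hg x y (fun i j h => hl i j ?_) (fun i j h => hr i j ?_) fun i j => ?_
    · rw [hx, hx, h]
    · rw [hy, hy, h]
    · have h := hadj i j
      rw [hx, hy] at h
      exact h
  · have hR : ∀ j, ∃ b, c (Sum.inr j) = Sum.inl b := by
      intro j
      have h := hadj 0 j
      rcases h1 : c (Sum.inr j) with b | b
      · exact ⟨b, rfl⟩
      · rw [h0, h1] at h
        exact absurd h (by simp [browG])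
    have hL : ∀ i, ∃ b, c (Sum.inl i) = Sum.inr b := by
      intro i
      have h := hadj i 0
      obtain ⟨b, hb⟩ := hR 0
      rcases h1 : c (Sum.inl i) with e | e
      · rw [hb, h1] at h
        exact absurd h (by simp [browG])
      · exact ⟨e, rfl⟩
    choose y hy using hR
    choose x hx using hL
    refine brown_core h2 g hg x y (fun i j h => hl i j ?_) (fun i j h => hr i j ?_) fun i j => ?_
    · rw [hx, hx, h]
    · rw [hy, hy, h]
    · have h := hadj i j
      rw [hx, hy] at h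
      have h3 : QQ (y j) (x i) = g := h
      rw [QQ_comm] at h3
      exact h3

theorem browG_edges (F : Type*) [Field F] [Fintype F] [DecidableEq F] (g : F)
    (hg : ¬ IsSquare g) [Fintype (browG F g).edgeSet] :
    Fintype.card F ^ 3 * (Fintype.card F * (Fintype.card F - 1)) ≤ #(browG F g).edgeFinset := by
  have h : #(univ : Finset ((F × F × F) × F × Fˣ)) ≤ #(browG F g).edgeFinset := by
    refine card_le_card_of_injOn
      (fun t => s(Sum.inl (t.1.1 + t.2.2, t.1.2.1 + (g - t.2.1 ^ 2) * (t.2.2 : F)⁻¹,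
        t.1.2.2 + t.2.1), Sum.inr t.1)) ?_ ?_
    · intro t _
      rw [mem_coe, mem_edgeFinset, mem_edgeSet]
      have h3 : (t.2.2 : F) ≠ 0 := t.2.2.ne_zero
      have h4 : QQ (t.1.1 + (t.2.2 : F), t.1.2.1 + (g - t.2.1 ^ 2) * (t.2.2 : F)⁻¹,
          t.1.2.2 + t.2.1) t.1 = g := by
        unfold QQ
        simp only [add_sub_cancel_left]
        field_simp
        ring
      exact h4
    · intro a _ b _ hab
      simp only [Sym2.eq_iff, Sum.inl.injEq, Sum.inr.injEq, Prod.mk.injEq, reduceCtorEq,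
        false_and, or_false] at hab
      obtain ⟨⟨h1, h2, h3⟩, h4⟩ := hab
      rw [h4] at h1 h3
      have h5 : (a.2.2 : F) = b.2.2 := add_left_cancel h1
      have h6 : a.2.1 = b.2.1 := add_left_cancel h3
      exact Prod.ext h4 (Prod.ext h6 (Units.ext h5))
  rw [card_univ, Fintype.card_prod, Fintype.card_prod, Fintype.card_prod, Fintype.card_prod,
    Fintype.card_units] at h
  refine le_trans (le_of_eq ?_) h
  ring

theorem k33_prime (p : ℕ) (hp : p.Prime) (hp2 : p ≠ 2) :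
    p ^ 3 * (p * (p - 1)) ≤
      extremalNumber (2 * p ^ 3) (completeBipartiteGraph (Fin 3) (Fin 3)) := by
  classical
  have := Fact.mk hp
  have hch : ringChar (ZMod p) ≠ 2 := by
    rw [ZMod.ringChar_zmod_n]
    exact hp2
  obtain ⟨g, hg⟩ := FiniteField.exists_nonsquare hch
  have h2 : (2 : ZMod p) ≠ 0 := Ring.two_ne_zero hch
  have h1 := card_edgeFinset_le_extremalNumber (browG_free (ZMod p) h2 g hg)
  have h3 := browG_edges (ZMod p) g hg
  rw [ZMod.card] at h3
  have h4 : Fintype.card ((ZMod p × ZMod p × ZMod p) ⊕ (ZMod p × ZMod p × ZMod p))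
      = 2 * p ^ 3 := by
    rw [Fintype.card_sum, Fintype.card_prod, Fintype.card_prod, ZMod.card]
    ring
  rw [h4] at h1
  exact h3.trans h1

theorem k33_bound : ∀ n : ℕ, 128 ≤ n →
    (n : ℝ) ^ (5 / 3 : ℝ) ≤
      204 * (extremalNumber n (completeBipartiteGraph (Fin 3) (Fin 3)) + 36) := by
  intro n hn
  obtain ⟨m, hm2, hm1, hm3⟩ : ∃ m : ℕ, 2 ≤ m ∧ 16 * m ^ 3 ≤ n ∧ n < 16 * (m + 1) ^ 3 := by
    have hex : ∃ k : ℕ, n < 16 * (k + 1) ^ 3 := ⟨n, by nlinarith [Nat.zero_le (n ^ 3)]⟩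
    refine ⟨Nat.find hex, ?_, ?_, Nat.find_spec hex⟩
    · by_contra hlt
      have h1 : Nat.find hex ≤ 1 := by omega
      have h3 := Nat.find_spec hex
      have h5 : (Nat.find hex + 1) ^ 3 ≤ 2 ^ 3 := Nat.pow_le_pow_left (by omega) 3
      omega
    · rcases Nat.eq_zero_or_pos (Nat.find hex) with h0 | h0
      · rw [h0]
        omega
      · have h1 := Nat.find_min hex (m := Nat.find hex - 1) (by omega)
        rw [Nat.sub_add_cancel h0] at h1
        omega
  obtain ⟨p, hp, hp1, hp2⟩ := Nat.exists_prime_lt_and_le_two_mul m (by omega)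
  have h1 := k33_prime p hp (by omega)
  have h2 : 2 * p ^ 3 ≤ n := by
    have h3 : p ^ 3 ≤ (2 * m) ^ 3 := Nat.pow_le_pow_left hp2 3
    have h4 : (2 * m) ^ 3 = 8 * m ^ 3 := by ring
    omega
  have h3 := extremalNumber_le_add (completeBipartiteGraph (Fin 3) (Fin 3)) h2
  rw [Fintype.card_sum, Fintype.card_fin] at h3
  have h4 : (m + 1) ^ 5 ≤ 2 * (p ^ 3 * (p * (p - 1))) := by
    obtain ⟨k, hk⟩ : ∃ k, p = m + 1 + k := ⟨p - (m + 1), by omega⟩
    have h5 : p - 1 = m + k := by omega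
    rw [h5]
    have h6 : (m + 1) ^ 4 ≤ p ^ 4 := Nat.pow_le_pow_left (by omega) 4
    calc (m + 1) ^ 5 = (m + 1) ^ 4 * (m + 1) := by ring
      _ ≤ p ^ 4 * (2 * (m + k)) := Nat.mul_le_mul h6 (by omega)
      _ = 2 * (p ^ 3 * (p * (m + k))) := by ring
  have h5 : (m + 1) ^ 5 ≤ 2 * (extremalNumber n (completeBipartiteGraph (Fin 3) (Fin 3)) + 36) := by
    have h6 := h1.trans h3
    omega
  have h6 : (n : ℝ) ^ (5 / 3 : ℝ) ≤ 102 * ((m : ℝ) + 1) ^ 5 := by
    have h0 : (n : ℝ) ≤ 16 * ((m : ℝ) + 1) ^ 3 := by exact_mod_cast hm3.le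
    have h7 : (n : ℝ) ^ (5 / 3 : ℝ) ≤ (16 * ((m : ℝ) + 1) ^ 3) ^ (5 / 3 : ℝ) :=
      Real.rpow_le_rpow (Nat.cast_nonneg n) h0 (by norm_num)
    refine h7.trans ?_
    have h8 : ((16 * ((m : ℝ) + 1) ^ 3) ^ (5 / 3 : ℝ)) ^ 3 ≤ (102 * ((m : ℝ) + 1) ^ 5) ^ 3 := by
      rw [← Real.rpow_mul_natCast (by positivity)]
      have h9 : (5 / 3 : ℝ) * (3 : ℕ) = (5 : ℕ) := by norm_num
      rw [h9, Real.rpow_natCast]
      have h10 : (0 : ℝ) ≤ ((m : ℝ) + 1) ^ 15 := by positivity
      have h11 : (16 * ((m : ℝ) + 1) ^ 3) ^ 5 = 1048576 * ((m : ℝ) + 1) ^ 15 := by ring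
      have h12 : (102 * ((m : ℝ) + 1) ^ 5) ^ 3 = 1061208 * ((m : ℝ) + 1) ^ 15 := by ring
      rw [h11, h12]
      nlinarith
    exact (pow_le_pow_iff_left₀ (by positivity) (by positivity) (by norm_num)).1 h8
  refine h6.trans ?_
  have h7 : ((m : ℝ) + 1) ^ 5 ≤
      2 * (extremalNumber n (completeBipartiteGraph (Fin 3) (Fin 3)) + 36) := by
    exact_mod_cast h5
  linarith

/-- If `H` contains `K_(3,3)` then `n ^ (5 / 3) = O(ex(n, H))`. -/
theorem isBigO_of_k33 {W : Type*} (H : SimpleGraph W)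
    (h : completeBipartiteGraph (Fin 3) (Fin 3) ⊑ H) {F : ℕ → ℝ}
    (hF : ∀ n, (extremalNumber n H : ℝ) ≤ F n) :
    (fun n : ℕ => (n : ℝ) ^ (2 - 1 / ((3 : ℕ) : ℝ))) =O[atTop] F := by
  have hF0 : ∀ n, 0 ≤ F n := fun n => (Nat.cast_nonneg _).trans (hF n)
  have he : (2 - 1 / ((3 : ℕ) : ℝ)) = (5 / 3 : ℝ) := by norm_num
  refine IsBigO.of_bound (408 : ℝ) ?_
  have h1 : ∀ᶠ n : ℕ in atTop, (20000 : ℝ) ≤ (n : ℝ) ^ (5 / 3 : ℝ) := by
    have h2 : Tendsto (fun n : ℕ => (n : ℝ) ^ (5 / 3 : ℝ)) atTop atTop :=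
      (tendsto_rpow_atTop (by norm_num)).comp tendsto_natCast_atTop_atTop
    exact h2.eventually_ge_atTop _
  filter_upwards [eventually_ge_atTop 128, h1] with n hn hbig
  rw [Real.norm_of_nonneg (by positivity), Real.norm_of_nonneg (hF0 n), he]
  have h2 := k33_bound n hn
  have h3 : (extremalNumber n (completeBipartiteGraph (Fin 3) (Fin 3)) : ℝ)
      ≤ extremalNumber n H := by
    exact_mod_cast h.extremalNumber_le (n := n)
  have h4 := hF n
  nlinarith

end H15DRC
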